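import Mathlib

/-!
# Blocking Nim in which every heap is blocked

A position is a tuple of heap sizes `x : Fin n → ℕ` (three heaps: `n = 3`).  Before every move the
player who is not about to move announces a block on all heaps: a positive number `a i` for each
heap `i`.  The mover then removes `k ≥ 1` counters from one heap `i`, where `k ≠ a i`.
A player who cannot move loses.

The `P`-positions (the player who is about to announce a block wins) are exactly the positions
for which the nim-sum of the numbers `⌊x i / 2⌋` is zero.
-/

set_option autoImplicit false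

namespace Pool.Agent.Results.MP_7e332b_co.AllHeapsBlocked

variable {n : ℕ}

/-- A block on all heaps: one forbidden amount, a positive integer, for each heap. -/
def IsBlock (a : Fin n → ℕ) : Prop := ∀ i, 1 ≤ a i

/-- `Move a x y`: under the block `a` the mover may go from `x` to `y`, by removing
`k ≥ 1` counters, `k ≠ a i`, from one heap `i`. -/
def Move (a x y : Fin n → ℕ) : Prop :=
  ∃ (i : Fin n) (k : ℕ), 1 ≤ k ∧ k ≤ x i ∧ k ≠ a i ∧ y = Function.update x i (x i - k)

mutual
/-- The player who is about to announce a block has a winning strategy: he has a block after which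
every legal move of the opponent leads to a position in which he, being the next player to move,
wins whatever block the opponent announces.  (If the opponent has no legal move, he has lost.) -/
inductive BlockerWins : (Fin n → ℕ) → Prop
  | mk (x a : Fin n → ℕ) (ha : IsBlock a) (h : ∀ y, Move a x y → MoverWins y) : BlockerWins x
/-- The player about to move (after the opponent announces a block) has a winning strategy: for
every block `a` he has a legal move `m a` to a position in which he, being now the player who
announces a block, wins. -/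
inductive MoverWins : (Fin n → ℕ) → Prop
  | mk (x : Fin n → ℕ) (m : (Fin n → ℕ) → (Fin n → ℕ))
      (h : ∀ a, IsBlock a → Move a x (m a)) (h' : ∀ a, IsBlock a → BlockerWins (m a)) :
      MoverWins x
end

/-- Binary addition without carry. -/
def bxor (a b : ℕ) : ℕ := a ^^^ b

instance xorComm : Std.Commutative bxor := ⟨Nat.xor_comm⟩
instance xorAssoc : Std.Associative bxor := ⟨Nat.xor_assoc⟩

/-- Nim-sum (binary addition without carry) of all the entries of a tuple. -/
def nimSum (x : Fin n → ℕ) : ℕ := Finset.univ.fold bxor 0 x

/-- The halves, rounded down, of the heap sizes. -/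
def half (x : Fin n → ℕ) : Fin n → ℕ := fun i => x i / 2

lemma nimSum_split (x : Fin n → ℕ) (i : Fin n) :
    nimSum x = x i ^^^ (Finset.univ.erase i).fold bxor 0 x := by
  unfold nimSum
  conv_lhs => rw [← Finset.insert_erase (Finset.mem_univ i)]
  rw [Finset.fold_insert (Finset.notMem_erase i _)]
  rfl

lemma nimSum_update (x : Fin n → ℕ) (i : Fin n) (v : ℕ) :
    nimSum (Function.update x i v) = v ^^^ (x i ^^^ nimSum x) := by
  rw [nimSum_split _ i, nimSum_split x i, Function.update_self]
  have : (Finset.univ.erase i).fold bxor 0 (Function.update x i v)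
      = (Finset.univ.erase i).fold bxor 0 x := by
    apply Finset.fold_congr
    intro j hj
    rw [Function.update_of_ne (Finset.ne_of_mem_erase hj)]
  rw [this, ← Nat.xor_assoc (x i), Nat.xor_self, Nat.zero_xor]

lemma testBit_fold (s : Finset (Fin n)) (x : Fin n → ℕ) (b : ℕ)
    (h : (s.fold bxor 0 x).testBit b = true) : ∃ i, (x i).testBit b = true := by
  induction s using Finset.induction_on with
  | empty => simp at h
  | insert i s hi ih =>
    rw [Finset.fold_insert hi, bxor, Nat.testBit_xor] at h
    by_cases hx : (x i).testBit b = true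
    · exact ⟨i, hx⟩
    · apply ih
      simp only [Bool.not_eq_true] at hx
      rw [hx] at h
      simpa using h

lemma exists_smaller (x : Fin n → ℕ) (h : nimSum x ≠ 0) :
    ∃ i t, t < x i ∧ nimSum (Function.update x i t) = 0 := by
  obtain ⟨b, hb, hb'⟩ := Nat.exists_most_significant_bit h
  obtain ⟨i, hi⟩ := testBit_fold _ x b hb
  refine ⟨i, x i ^^^ nimSum x, ?_, ?_⟩
  · apply Nat.lt_of_testBit b
    · rw [Nat.testBit_xor, hi, hb]; rfl
    · exact hi
    · intro j hj
      rw [Nat.testBit_xor, hb' j hj]; simp
  · rw [nimSum_update, Nat.xor_self]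

lemma half_update (x : Fin n → ℕ) (i : Fin n) (v : ℕ) :
    half (Function.update x i v) = Function.update (half x) i (v / 2) := by
  funext j
  unfold half
  by_cases h : j = i
  · subst h; simp
  · simp [Function.update_of_ne h]

lemma sum_update_lt (x : Fin n → ℕ) (i : Fin n) (v : ℕ) (hv : v < x i) :
    ∑ j, Function.update x i v j < ∑ j, x j := by
  apply Finset.sum_lt_sum
  · intro j _
    by_cases h : j = i
    · subst h; simpa using hv.le
    · simp [Function.update_of_ne h]
  · exact ⟨i, Finset.mem_univ i, by simpa using hv⟩

theorem main (N : ℕ) : ∀ x : Fin n → ℕ, ∑ i, x i = N →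
    (nimSum (half x) = 0 → BlockerWins x) ∧ (nimSum (half x) ≠ 0 → MoverWins x) := by
  induction N using Nat.strong_induction_on with
  | _ N ih =>
    intro x hx
    constructor
    · intro h0
      refine BlockerWins.mk x (fun _ => 1) (fun _ => le_rfl) ?_
      rintro y ⟨i, k, hk1, hk2, hk3, rfl⟩
      have hlt : x i - k < x i := by omega
      refine (ih _ (hx ▸ sum_update_lt x i _ hlt) _ rfl).2 ?_
      rw [half_update, nimSum_update, h0, Nat.xor_zero]
      intro h
      have h1 : (x i - k) / 2 = half x i := by
        rwa [Nat.xor_eq_zero_iff] at h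
      unfold half at h1
      have : k ≠ 1 := hk3
      omega
    · intro h0
      obtain ⟨i, t, ht, hz⟩ := exists_smaller _ h0
      have ht' : t < x i / 2 := ht
      -- the two good options on heap `i`
      let v : (Fin n → ℕ) → ℕ := fun a => if x i - 2 * t = a i then 2 * t + 1 else 2 * t
      have hv1 : ∀ a, v a / 2 = t := by
        intro a; simp only [v]; split_ifs <;> omega
      have hv2 : ∀ a, v a < x i := by
        intro a; simp only [v]; split_ifs <;> omega
      have hv3 : ∀ a, x i - v a ≠ a i := by
        intro a; simp only [v]; split_ifs <;> omega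
      refine MoverWins.mk x (fun a => Function.update x i (v a)) ?_ ?_
      · intro a _
        refine ⟨i, x i - v a, ?_, Nat.sub_le _ _, hv3 a, ?_⟩
        · have := hv2 a; omega
        · have := hv2 a
          rw [Nat.sub_sub_self this.le]
      · intro a _
        refine (ih _ (hx ▸ sum_update_lt x i _ (hv2 a)) _ rfl).1 ?_
        rw [half_update, hv1 a]
        exact hz

theorem not_both (N : ℕ) : ∀ x : Fin n → ℕ, ∑ i, x i = N →
    ¬ (BlockerWins x ∧ MoverWins x) := by
  induction N using Nat.strong_induction_on with
  | _ N ih =>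
    rintro x hx ⟨hb, hm⟩
    cases hb with
    | mk _ a ha h =>
      cases hm with
      | mk _ m hm1 hm2 =>
        have hmove := hm1 a ha
        obtain ⟨i, k, hk1, hk2, hk3, hy⟩ := hmove
        have hlt : x i - k < x i := by omega
        have hs : ∑ j, m a j < N := by rw [hy, ← hx]; exact sum_update_lt x i _ hlt
        exact ih _ hs (m a) rfl ⟨hm2 a ha, h _ ⟨i, k, hk1, hk2, hk3, hy⟩⟩

/-- The `P`-positions of Blocking Nim with a block on all heaps.  For every number `n` of heaps
the player about to announce a block wins iff the nim-sum of the halves (rounded down) of the heap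
sizes is zero, and otherwise the player about to move wins.  In particular `(x₁, x₂, x₃)` is a
`P`-position of the game with three heaps iff `⌊x₁/2⌋ ⊕ ⌊x₂/2⌋ ⊕ ⌊x₃/2⌋ = 0`. -/
theorem result :
    (∀ (n : ℕ) (x : Fin n → ℕ),
      (BlockerWins x ↔ nimSum (half x) = 0) ∧ (MoverWins x ↔ nimSum (half x) ≠ 0)) ∧
    (∀ x₁ x₂ x₃ : ℕ, BlockerWins ![x₁, x₂, x₃] ↔ (x₁ / 2) ^^^ (x₂ / 2) ^^^ (x₃ / 2) = 0) := by
  have key : ∀ (n : ℕ) (x : Fin n → ℕ),
      (BlockerWins x ↔ nimSum (half x) = 0) ∧ (MoverWins x ↔ nimSum (half x) ≠ 0) := by
    intro n x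
    have h1 := main _ x rfl
    have h2 := not_both _ x rfl
    refine ⟨⟨fun hb => ?_, h1.1⟩, ⟨fun hm h0 => ?_, h1.2⟩⟩
    · by_contra h
      exact h2 ⟨hb, h1.2 h⟩
    · exact h2 ⟨h1.1 h0, hm⟩
  refine ⟨key, fun x₁ x₂ x₃ => ?_⟩
  rw [(key 3 _).1]
  have : nimSum (half ![x₁, x₂, x₃]) = (x₁ / 2) ^^^ (x₂ / 2) ^^^ (x₃ / 2) := by
    rw [nimSum_split _ 0]
    have e : (Finset.univ.erase (0 : Fin 3)) = {1, 2} := by decide
    rw [e, Finset.fold_insert (by decide), Finset.fold_singleton]
    simp [half, bxor, Nat.xor_assoc]
  rw [this]

end Pool.Agent.Results.MP_7e332b_co.AllHeapsBlocked
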